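import Mathlib

namespace Pool.Agent.Results.MP_cdb8a2_al.NoS3

/-- `φ` is an envelope: every homomorphism `H → G` factors as `f ∘ φ` with `f` an endomorphism of `G`, and every
endomorphism `f` with `f ∘ φ = φ` is an automorphism. -/
def IsEnvelope {H G : Type*} [Group H] [Group G] (φ : H →* G) : Prop :=
  (∀ ψ : H →* G, ∃ f : G →* G, f.comp φ = ψ) ∧ ∀ f : G →* G, f.comp φ = φ → Function.Bijective f

/-- The Galois group: automorphisms `f` of `G` with `f ∘ φ = φ`. -/
def Gal {H G : Type*} [Group H] [Group G] (φ : H →* G) : Subgroup (MulAut G) where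
  carrier := {f | ∀ h, f (φ h) = φ h}
  one_mem' _ := rfl
  mul_mem' p q h := by rw [MulAut.mul_apply, q h, p h]
  inv_mem' {f} p h := by rw [MulAut.inv_apply, MulEquiv.symm_apply_eq, p h]

lemma cen : ∀ s : Equiv.Perm (Fin 3), (∀ t, t * s = s * t) → s = 1 := by decide
lemma cyc : ∀ s t : Equiv.Perm (Fin 3), s ≠ 1 → t * s = s * t → t = 1 ∨ t = s ∨ t = s * s := by decide

theorem result {G : Type*} [Group G] (φ : Multiplicative ℤ →* G) (h : IsEnvelope φ) :
    IsEmpty (Gal φ ≃* Equiv.Perm (Fin 3)) := by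
  refine ⟨fun e => ?_⟩
  set x := φ (.ofAdd 1) with hx
  have ph : ∀ n, φ n = x ^ n.toAdd := fun n => by rw [hx, ← map_zpow, ← ofAdd_zsmul]; simp
  have fx : ∀ f : G →* G, f x = x → f.comp φ = φ := fun f p => by ext; simpa using p
  have mg : ∀ f : MulAut G, f x = x → f ∈ Gal φ := fun f p n => by rw [ph, map_zpow, p]
  have ex : ∀ g, ∃ f : G →* G, f x = g := fun g => by
    obtain ⟨f, p⟩ := h.1 (zpowersHom G g)
    exact ⟨f, by simpa using DFunLike.congr_fun p (.ofAdd 1)⟩
  have xc : ∀ g, g * x = x * g := by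
    have : e ⟨MulAut.conj x, mg _ (by simp)⟩ = 1 := cen _ fun t => by
      obtain ⟨t, rfl⟩ := e.surjective t
      rw [← map_mul, ← map_mul]
      congr 1
      ext g
      have := t.2 (.ofAdd 1)
      simp [← hx] at this
      simp [this]
    intro g
    have := DFunLike.congr_fun (congrArg Subtype.val ((map_eq_one_iff e e.injective).1 this)) g
    simp at this
    rw [← mul_inv_eq_iff_eq_mul.1 this]
  let c : G →* Equiv.Perm (Fin 3) := e.toMonoidHom.comp
    (MulAut.conj.codRestrict (Gal φ) fun g => mg _ (by simp [xc g]))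
  have cz : ∀ g, c g = 1 → ∀ u, g * u = u * g := fun g p u => by
    have := DFunLike.congr_fun (congrArg Subtype.val ((map_eq_one_iff e e.injective).1 p)) u
    simp at this
    exact mul_inv_eq_iff_eq_mul.1 this
  have ab : ∀ a b : G, a * b = b * a := by
    by_contra! k
    obtain ⟨b, a, k⟩ := k
    have cb : c b ≠ 1 := fun p => k (cz b p a)
    have f1 : ∀ u, Commute u b → ∃ n : ℕ, ∀ w, Commute (u * (b ^ n)⁻¹) w := fun u p => by
      rcases cyc (c b) (c u) cb (by rw [← map_mul, p.eq, map_mul]) with q | q | q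
      · exact ⟨0, cz _ (by simp [q])⟩
      · exact ⟨1, cz _ (by simp [q])⟩
      · exact ⟨2, cz _ (by simp [q, sq])⟩
    have f2 : ∀ u v, Commute u b → Commute v b → Commute u v := fun u v p q => by
      obtain ⟨n, r⟩ := f1 u p
      simpa using (r v).mul_left (q.symm.pow_left n)
    obtain ⟨f, p⟩ := ex b
    obtain ⟨g, q⟩ := ex (b⁻¹ * x)
    have i : ∀ u, Commute (f u) b := fun u => p ▸ (show Commute u x from xc u).map f
    have j : ∀ u, Commute (g u) b := fun u => by
      have := ((show Commute u x from xc u).map g).mul_right (show Commute (g u) x from xc _).inv_right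
      simpa [q] using this
    let F : G →* G := MonoidHom.mk' (fun u => f u * g u) fun u v => by
      simp only [map_mul, mul_assoc]
      rw [← mul_assoc (f v), (f2 _ _ (i v) (j u)).eq, mul_assoc]
    have s := (h.2 F (fx F (by simp [F, p, q]))).2
    obtain ⟨a, rfl⟩ := s a
    exact k ((i a).mul_left (j a)).symm.eq
  let _ : CommGroup G := { ‹Group G› with mul_comm := ab }
  let L : Subgroup (G →* G) := (MonoidHom.eval x).ker
  let θ : Gal φ → L := fun s => ⟨s.1.toMonoidHom / .id G, by simpa [L, div_eq_one] using s.2 (.ofAdd 1)⟩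
  have bij : Function.Bijective θ := ⟨fun s t p => by
    ext u
    simpa [θ] using DFunLike.congr_fun (congrArg Subtype.val p) u, fun ⟨l, p⟩ => by
    have q : (l * .id G) x = x := by simpa [L] using p
    exact ⟨⟨.ofBijective _ (h.2 _ (fx _ q)), mg _ q⟩, by ext u; simp [θ]⟩⟩
  have cd : Nat.card L = 6 := by rw [← Nat.card_eq_of_bijective θ bij, Nat.card_congr e.toEquiv]; simp; rfl
  have : Finite L := Nat.finite_of_card_ne_zero (by omega)
  have : IsZGroup L := .of_squarefree (by rw [cd]; decide +kernel)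
  obtain ⟨g, p⟩ := IsCyclic.exists_zpow_surjective (G := L)
  have r : ∀ s : Gal φ, ∃ n : ℤ, ∀ u, s.1 u = u * g.1 u ^ n := fun s => by
    obtain ⟨n, q⟩ := p (θ s)
    refine ⟨n, fun u => ?_⟩
    have := DFunLike.congr_fun (congrArg Subtype.val q) u
    simp [θ] at this
    simp [this]
  have : Equiv.swap (0 : Fin 3) 1 = 1 := cen _ fun t => by
    obtain ⟨t, rfl⟩ := e.surjective t
    obtain ⟨s, q⟩ := e.surjective (Equiv.swap 0 1)
    rw [← q, ← map_mul, ← map_mul]
    congr 1
    ext u
    obtain ⟨n, a⟩ := r s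
    obtain ⟨m, b⟩ := r t
    simp only [Subgroup.coe_mul, MulAut.mul_apply, a, b, map_mul, map_zpow, mul_zpow, ← zpow_mul, mul_comm n m]
    rw [mul_mul_mul_comm, mul_right_comm, mul_right_comm u, mul_assoc]
  revert this
  decide

end Pool.Agent.Results.MP_cdb8a2_al.NoS3
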